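import Mathlib

namespace Pool.Agent.Results.MP_8a117e_lc.StronglySurjective

open Set Cardinal

/-- Auxiliary form of the surjectivity relation, with total functions on the reals. -/
def Onto (A B : Set ℝ) : Prop := ∃ f : ℝ → ℝ, MonotoneOn f A ∧ f '' A = B

theorem Onto.trans {A B C : Set ℝ} (h1 : Onto A B) (h2 : Onto B C) : Onto A C := by
  obtain ⟨f, hf, rfl⟩ := h1
  obtain ⟨g, hg, rfl⟩ := h2
  refine ⟨g ∘ f, ?_, ?_⟩
  · intro x hx y hy hxy
    exact hg (mem_image_of_mem f hx) (mem_image_of_mem f hy) (hf hx hy hxy)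
  · rw [image_comp]

theorem onto_of {A B : Set ℝ} (h : ∃ f : A → B, Monotone f ∧ Function.Surjective f) :
    Onto A B := by
  classical
  obtain ⟨f, hf, hs⟩ := h
  refine ⟨fun x => if hx : x ∈ A then (f ⟨x, hx⟩ : ℝ) else 0, ?_, ?_⟩
  · intro x hx y hy hxy
    simp only [hx, hy, dif_pos]
    exact hf hxy
  · ext b
    constructor
    · rintro ⟨a, ha, rfl⟩
      simp [ha]
    · intro hb
      obtain ⟨a, ha⟩ := hs ⟨b, hb⟩
      refine ⟨a, a.2, ?_⟩
      simp [ha]

theorem of_onto {A B : Set ℝ} (h : Onto A B) :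
    ∃ f : A → B, Monotone f ∧ Function.Surjective f := by
  obtain ⟨f, hf, rfl⟩ := h
  refine ⟨fun a => ⟨f a, mem_image_of_mem f a.2⟩, ?_, ?_⟩
  · intro a b hab
    exact hf a.2 b.2 hab
  · rintro ⟨_, a, ha, rfl⟩
    exact ⟨⟨a, ha⟩, rfl⟩

theorem exists_right {L : Set ℝ} {κ : Cardinal.{0}} (hκ : ℵ₀ < κ.ord.cof)
    (hL : Cardinal.mk L = κ) :
    ∃ t ∈ L, ∀ x > t, Cardinal.mk (L ∩ Ioo t x : Set ℝ) = κ := by
  have hκ0 : ℵ₀ < κ := hκ.trans_le (Ordinal.cof_ord_le κ)
  by_contra hcon
  push Not at hcon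
  choose! x hx hxk using hcon
  have hlt : ∀ t ∈ L, Cardinal.mk (L ∩ Ioo t (x t) : Set ℝ) < κ := fun t ht =>
    lt_of_le_of_ne (hL ▸ mk_le_mk_of_subset inter_subset_left) (hxk t ht)
  obtain ⟨T, hTL, hTc, hTU⟩ := TopologicalSpace.isOpen_biUnion_countable L
    (fun t => Ioo t (x t)) (fun _ _ => isOpen_Ioo)
  set N := L \ ⋃ t ∈ L, Ioo t (x t) with hNdef
  have hN : N.Countable := by
    refine Set.PairwiseDisjoint.countable_of_isOpen (s := fun t => Ioo t (x t)) ?_
      (fun _ _ => isOpen_Ioo) ?_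
    · have key : ∀ a ∈ N, ∀ b ∈ N, a < b → Disjoint (Ioo a (x a)) (Ioo b (x b)) := by
        intro a ha b hb hab
        have hba : x a ≤ b := by
          by_contra hba
          push Not at hba
          exact hb.2 (mem_biUnion ha.1 ⟨hab, hba⟩)
        rw [Set.disjoint_left]
        intro z hz hz'
        exact absurd (hz.2.trans_le hba) (not_lt.mpr hz'.1.le)
      intro a ha b hb hab
      rcases lt_or_gt_of_ne hab with h | h
      · exact key a ha b hb h
      · exact (key b hb a ha h).symm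
    · intro a ha
      exact nonempty_Ioo.mpr (hx a ha.1)
  have hsub : L ⊆ N ∪ ⋃ t ∈ T, (L ∩ Ioo t (x t)) := by
    intro a ha
    by_cases hU : a ∈ ⋃ t ∈ L, Ioo t (x t)
    · rw [← hTU] at hU
      right
      simp only [mem_iUnion] at hU ⊢
      obtain ⟨t, htT, ht⟩ := hU
      exact ⟨t, htT, ha, ht⟩
    · left
      exact ⟨ha, hU⟩
  have hU : Cardinal.mk (⋃ t ∈ T, (L ∩ Ioo t (x t)) : Set ℝ) < κ := by
    refine (mk_biUnion_le _ _).trans_lt ?_
    refine mul_lt_of_lt hκ0.le (hTc.le_aleph0.trans_lt hκ0) ?_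
    refine Cardinal.iSup_lt_of_lt_cof_ord (hTc.le_aleph0.trans_lt hκ) ?_
    intro t
    exact hlt t (hTL t.2)
  have : Cardinal.mk L < κ := by
    refine (mk_le_mk_of_subset hsub).trans_lt ?_
    refine (mk_union_le _ _).trans_lt ?_
    exact add_lt_of_lt hκ0.le (hN.le_aleph0.trans_lt hκ0) hU
  exact absurd hL this.ne

theorem exists_left {L : Set ℝ} {κ : Cardinal.{0}} (hκ : ℵ₀ < κ.ord.cof)
    (hL : Cardinal.mk L = κ) :
    ∃ t ∈ L, ∀ x < t, Cardinal.mk (L ∩ Ioo x t : Set ℝ) = κ := by
  have hinj : Function.Injective (fun a : ℝ => -a) := neg_injective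
  obtain ⟨t, ht, h⟩ := exists_right (L := (fun a : ℝ => -a) '' L) hκ
    (by rw [mk_image_eq hinj, hL])
  obtain ⟨s, hs, rfl⟩ := ht
  refine ⟨s, hs, ?_⟩
  intro x hx
  rw [← h (-x) (by simpa using hx)]
  rw [← mk_image_eq (s := (L ∩ Ioo x s : Set ℝ)) hinj]
  congr 2
  rw [image_inter hinj]
  congr 1
  ext z
  simp only [mem_image, mem_Ioo]
  constructor
  · rintro ⟨y, ⟨h1, h2⟩, rfl⟩
    constructor <;> linarith
  · rintro ⟨h1, h2⟩
    exact ⟨-z, ⟨by linarith, by linarith⟩, by ring⟩

/-- In a `κ`-surjective set of reals of size `κ`, nonempty initial segments have size `κ`. -/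
theorem mk_Iic {L : Set ℝ} {κ : Cardinal.{0}} (hκ : ℵ₀ < κ.ord.cof) (hL : Cardinal.mk L = κ)
    (hs : ∀ M : Set ℝ, M ⊆ L → Cardinal.mk M = κ → Onto L M) (i : ℝ) (hi : i ∈ L) :
    Cardinal.mk (L ∩ Iic i : Set ℝ) = κ := by
  obtain ⟨t, ht, htx⟩ := exists_right hκ hL
  have hM : Cardinal.mk (L ∩ Ioi t : Set ℝ) = κ := by
    apply le_antisymm
    · exact hL ▸ mk_le_mk_of_subset inter_subset_left
    · rw [← htx (t + 1) (by linarith)]
      exact mk_le_mk_of_subset (inter_subset_inter_right _ Ioo_subset_Ioi_self)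
  obtain ⟨f, hf, hfM⟩ := hs _ inter_subset_left hM
  have hfi : f i ∈ L ∩ Ioi t := hfM ▸ mem_image_of_mem f hi
  apply le_antisymm
  · exact hL ▸ mk_le_mk_of_subset inter_subset_left
  · rw [← htx (f i) hfi.2]
    refine le_trans ?_ (mk_image_le (f := f) (s := (L ∩ Iic i : Set ℝ)))
    apply mk_le_mk_of_subset
    rintro z ⟨hzL, hzt, hzi⟩
    have hz : z ∈ f '' L := by
      rw [hfM]
      exact ⟨hzL, hzt⟩
    obtain ⟨w, hw, rfl⟩ := hz
    refine ⟨w, ⟨hw, ?_⟩, rfl⟩
    by_contra hwi
    have hwi' : i ≤ w := (not_le.mp hwi).le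
    exact absurd (hf hi hw hwi') (not_le.mpr hzi)

theorem mk_Ici {L : Set ℝ} {κ : Cardinal.{0}} (hκ : ℵ₀ < κ.ord.cof) (hL : Cardinal.mk L = κ)
    (hs : ∀ M : Set ℝ, M ⊆ L → Cardinal.mk M = κ → Onto L M) (i : ℝ) (hi : i ∈ L) :
    Cardinal.mk (L ∩ Ici i : Set ℝ) = κ := by
  obtain ⟨t, ht, htx⟩ := exists_left hκ hL
  have hM : Cardinal.mk (L ∩ Iio t : Set ℝ) = κ := by
    apply le_antisymm
    · exact hL ▸ mk_le_mk_of_subset inter_subset_left
    · rw [← htx (t - 1) (by linarith)]
      exact mk_le_mk_of_subset (inter_subset_inter_right _ Ioo_subset_Iio_self)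
  obtain ⟨f, hf, hfM⟩ := hs _ inter_subset_left hM
  have hfi : f i ∈ L ∩ Iio t := hfM ▸ mem_image_of_mem f hi
  apply le_antisymm
  · exact hL ▸ mk_le_mk_of_subset inter_subset_left
  · rw [← htx (f i) hfi.2]
    refine le_trans ?_ (mk_image_le (f := f) (s := (L ∩ Ici i : Set ℝ)))
    apply mk_le_mk_of_subset
    rintro z ⟨hzL, hzi, hzt⟩
    have hz : z ∈ f '' L := by
      rw [hfM]
      exact ⟨hzL, hzt⟩
    obtain ⟨w, hw, rfl⟩ := hz
    refine ⟨w, ⟨hw, ?_⟩, rfl⟩
    by_contra hwi
    have hwi' : w ≤ i := (not_le.mp hwi).le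
    exact absurd (hf hw hi hwi') (not_le.mpr hzi)

theorem main {L : Set ℝ} {κ : Cardinal.{0}} (hκ : ℵ₀ < κ.ord.cof) (hL : Cardinal.mk L = κ)
    (hs : ∀ M : Set ℝ, M ⊆ L → Cardinal.mk M = κ → Onto L M) (K : Set ℝ) (hKL : K ⊆ L)
    (hK : K.Nonempty) : Onto L K := by
  classical
  obtain ⟨t, ht, htx⟩ := exists_right hκ hL
  have sub_of : ∀ M : Set ℝ, M ⊆ L → κ ≤ Cardinal.mk M → Cardinal.mk M = κ := fun M hM h =>
    le_antisymm (hL ▸ mk_le_mk_of_subset hM) h
  by_cases hK1 : (K ∩ Iic t).Nonempty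
  · -- the main case
    set P : Set ℝ := (K ∩ Iic t) ∪ (L ∩ Ioi t) with hP
    have hPL : P ⊆ L := union_subset (inter_subset_left.trans hKL) inter_subset_left
    have hPk : Cardinal.mk P = κ := by
      apply sub_of _ hPL
      rw [← htx (t + 1) (by linarith)]
      exact mk_le_mk_of_subset
        ((inter_subset_inter_right _ Ioo_subset_Ioi_self).trans subset_union_right)
    obtain ⟨f, hf, hfP⟩ := hs P hPL hPk
    have hKP : K ⊆ P := by
      intro k hk
      rcases le_or_gt k t with h | h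
      · exact Or.inl ⟨hk, h⟩
      · exact Or.inr ⟨hKL hk, h⟩
    have hfmem : ∀ x ∈ L, f x ≤ t → f x ∈ K := by
      intro x hx hxt
      have : f x ∈ P := hfP ▸ mem_image_of_mem f hx
      rcases this with h | h
      · exact h.1
      · exact absurd h.2 (not_lt.mpr hxt)
    by_cases hA : ∃ x₀ ∈ L, t < x₀ ∧ f x₀ ≤ t
    · -- Case B
      obtain ⟨x₀, hx₀L, hx₀t, hfx₀⟩ := hA
      have hkK : f x₀ ∈ K := hfmem x₀ hx₀L hfx₀
      set M : Set ℝ := (K ∩ Iic (f x₀)) ∪ (L ∩ Ioo t x₀) ∪ (L ∩ Ici x₀ ∩ f ⁻¹' K) with hMdef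
      have hML : M ⊆ L := by
        rintro x ((h | h) | h)
        · exact hKL h.1
        · exact h.1
        · exact h.1.1
      have hMk : Cardinal.mk M = κ := by
        apply sub_of _ hML
        rw [← htx x₀ hx₀t]
        exact mk_le_mk_of_subset (subset_union_right.trans subset_union_left)
      refine (hs M hML hMk).trans ?_
      refine ⟨fun x => if x ≤ t then x else if x < x₀ then f x₀ else f x, ?_, ?_⟩
      · intro x hx y hy hxy
        have hlow : ∀ z ∈ M, z ≤ t → z ≤ f x₀ := by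
          rintro z ((h | h) | h) hzt
          · exact h.2
          · exact absurd h.2.1 (not_lt.mpr hzt)
          · exact absurd (hx₀t.trans_le h.1.2) (not_lt.mpr hzt)
        by_cases h1 : x ≤ t
        · by_cases h2 : y ≤ t
          · simp only [h1, h2, if_true]
            exact hxy
          · by_cases h3 : y < x₀
            · simp only [h1, h2, h3, if_true, if_false]
              exact hlow x hx h1
            · simp only [h1, h2, h3, if_true, if_false]
              exact (hlow x hx h1).trans (hf hx₀L (hML hy) (not_lt.mp h3))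
        · have h2 : ¬ y ≤ t := fun h => h1 (hxy.trans h)
          by_cases h3 : x < x₀
          · by_cases h4 : y < x₀
            · simp only [h1, h2, h3, h4, if_true, if_false]
              exact le_refl _
            · simp only [h1, h2, h3, h4, if_true, if_false]
              exact hf hx₀L (hML hy) (not_lt.mp h4)
          · have h4 : ¬ y < x₀ := fun h => h3 (hxy.trans_lt h)
            simp only [h1, h2, h3, h4, if_false]
            exact hf (hML hx) (hML hy) hxy
      · ext k
        constructor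
        · rintro ⟨x, hx, rfl⟩
          rcases hx with (h | h) | h
          · have h1 : x ≤ t := (mem_Iic.mp h.2).trans hfx₀
            simp only [h1, if_true]
            exact h.1
          · have h1 : ¬ x ≤ t := not_le.mpr h.2.1
            have h2 : x < x₀ := h.2.2
            simp only [h1, h2, if_true, if_false]
            exact hkK
          · have h1 : ¬ x ≤ t := not_le.mpr (hx₀t.trans_le h.1.2)
            have h2 : ¬ x < x₀ := not_lt.mpr h.1.2
            simp only [h1, h2, if_false]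
            exact h.2
        · intro hk
          rcases le_or_gt k (f x₀) with h | h
          · refine ⟨k, Or.inl (Or.inl ⟨hk, h⟩), ?_⟩
            have h1 : k ≤ t := h.trans hfx₀
            simp only [h1, if_true]
          · have hkf : k ∈ f '' L := hfP ▸ hKP hk
            obtain ⟨w, hw, rfl⟩ := hkf
            have hwx : x₀ ≤ w := by
              by_contra hc
              exact absurd (hf hw hx₀L (not_le.mp hc).le) (not_le.mpr h)
            refine ⟨w, Or.inr ⟨⟨hw, hwx⟩, hk⟩, ?_⟩
            have h1 : ¬ w ≤ t := not_le.mpr (hx₀t.trans_le hwx)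
            have h2 : ¬ w < x₀ := not_lt.mpr hwx
            simp only [h1, h2, if_false]
    · -- Case A
      push Not at hA
      obtain ⟨k, hkK, hkt⟩ := hK1
      have hkf : k ∈ f '' L := hfP ▸ hKP hkK
      obtain ⟨l, hl, rfl⟩ := hkf
      set M : Set ℝ := (L ∩ {x | f x ≤ t}) ∪ (K ∩ Ioi t) with hMdef
      have hML : M ⊆ L := union_subset inter_subset_left (inter_subset_left.trans hKL)
      have hMk : Cardinal.mk M = κ := by
        apply sub_of _ hML
        rw [← mk_Iic hκ hL hs l hl]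
        apply mk_le_mk_of_subset
        rintro x ⟨hx, hxl⟩
        exact Or.inl ⟨hx, (hf hx hl hxl).trans hkt⟩
      have hle : ∀ x ∈ L, f x ≤ t → x ≤ t := by
        intro x hx hxt
        by_contra hc
        exact absurd hxt (not_le.mpr (hA x hx (not_le.mp hc)))
      refine (hs M hML hMk).trans ?_
      refine ⟨fun x => if x ≤ t then f x else x, ?_, ?_⟩
      · intro x hx y hy hxy
        have hlow : ∀ z ∈ M, z ≤ t → f z ≤ t := by
          rintro z (h | h) hzt
          · exact h.2
          · exact absurd h.2 (not_lt.mpr hzt)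
        by_cases h1 : x ≤ t
        · by_cases h2 : y ≤ t
          · simp only [h1, h2, if_true]
            exact hf (hML hx) (hML hy) hxy
          · simp only [h1, h2, if_true, if_false]
            exact (hlow x hx h1).trans (not_le.mp h2).le
        · have h2 : ¬ y ≤ t := fun h => h1 (hxy.trans h)
          simp only [h1, h2, if_false]
          exact hxy
      · ext k
        constructor
        · rintro ⟨x, hx, rfl⟩
          rcases hx with h | h
          · have h1 : x ≤ t := hle x h.1 h.2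
            simp only [h1, if_true]
            exact hfmem x h.1 h.2
          · have h1 : ¬ x ≤ t := not_le.mpr h.2
            simp only [h1, if_false]
            exact h.1
        · intro hk
          rcases le_or_gt k t with h | h
          · have hkf : k ∈ f '' L := hfP ▸ hKP hk
            obtain ⟨w, hw, rfl⟩ := hkf
            refine ⟨w, Or.inl ⟨hw, h⟩, ?_⟩
            have h1 : w ≤ t := hle w hw h
            simp only [h1, if_true]
          · refine ⟨k, Or.inr ⟨hk, h⟩, ?_⟩
            have h1 : ¬ k ≤ t := not_le.mpr h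
            simp only [h1, if_false]
  · -- K lies above t
    have hKt : ∀ k ∈ K, t < k := by
      intro k hk
      by_contra hc
      exact hK1 ⟨k, hk, not_lt.mp hc⟩
    set P : Set ℝ := (L ∩ Iic t) ∪ K with hP
    have hPL : P ⊆ L := union_subset inter_subset_left hKL
    have hPk : Cardinal.mk P = κ := by
      apply sub_of _ hPL
      rw [← mk_Iic hκ hL hs t ht]
      exact mk_le_mk_of_subset subset_union_left
    obtain ⟨f, hf, hfP⟩ := hs P hPL hPk
    obtain ⟨k, hk⟩ := hK
    have hkf : k ∈ f '' L := by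
      rw [hfP]
      exact Or.inr hk
    obtain ⟨l, hl, rfl⟩ := hkf
    have hFL : L ∩ f ⁻¹' K ⊆ L := inter_subset_left
    have hFk : Cardinal.mk (L ∩ f ⁻¹' K : Set ℝ) = κ := by
      apply sub_of _ hFL
      rw [← mk_Ici hκ hL hs l hl]
      apply mk_le_mk_of_subset
      rintro x ⟨hx, hlx⟩
      refine ⟨hx, ?_⟩
      have h1 : f l ≤ f x := hf hl hx hlx
      have h2 : f x ∈ P := hfP ▸ mem_image_of_mem f hx
      rcases h2 with h | h
      · exact absurd ((hKt _ hk).trans_le h1) (not_lt.mpr h.2)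
      · exact h
    refine (hs _ hFL hFk).trans ⟨f, hf.mono hFL, ?_⟩
    ext k
    constructor
    · rintro ⟨x, hx, rfl⟩
      exact hx.2
    · intro hk'
      have hkf : k ∈ f '' L := by
        rw [hfP]
        exact Or.inr hk'
      obtain ⟨w, hw, rfl⟩ := hkf
      exact ⟨w, ⟨hw, hk'⟩, rfl⟩

/-- For every cardinal `κ` of uncountable cofinality, every `κ`-surjective set of reals of size
`κ` is strongly surjective; in particular this holds for `κ = ℵ₂`. -/
theorem result :
    (∀ L : Set ℝ, Cardinal.mk L = Cardinal.aleph 2 →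
      (∀ M : Set ℝ, M ⊆ L → Cardinal.mk M = Cardinal.aleph 2 →
        ∃ f : L → M, Monotone f ∧ Function.Surjective f) →
      ∀ K : Set ℝ, K ⊆ L → K.Nonempty → ∃ f : L → K, Monotone f ∧ Function.Surjective f) ∧
    (∀ κ : Cardinal.{0}, Cardinal.aleph0 < κ.ord.cof →
      ∀ L : Set ℝ, Cardinal.mk L = κ →
      (∀ M : Set ℝ, M ⊆ L → Cardinal.mk M = κ →
        ∃ f : L → M, Monotone f ∧ Function.Surjective f) →
      ∀ K : Set ℝ, K ⊆ L → K.Nonempty → ∃ f : L → K, Monotone f ∧ Function.Surjective f) := by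
  have hgen : ∀ κ : Cardinal.{0}, Cardinal.aleph0 < κ.ord.cof →
      ∀ L : Set ℝ, Cardinal.mk L = κ →
      (∀ M : Set ℝ, M ⊆ L → Cardinal.mk M = κ →
        ∃ f : L → M, Monotone f ∧ Function.Surjective f) →
      ∀ K : Set ℝ, K ⊆ L → K.Nonempty →
        ∃ f : L → K, Monotone f ∧ Function.Surjective f := by
    intro κ hκ L hL hs K hKL hK
    exact of_onto (main hκ hL (fun M hML hM => onto_of (hs M hML hM)) K hKL hK)
  refine ⟨hgen _ ?_, hgen⟩
  have h2 : (Cardinal.aleph 2).IsRegular := by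
    have := Cardinal.isRegular_aleph_add_one 1
    rwa [one_add_one_eq_two] at this
  rw [h2.cof_ord]
  exact Cardinal.aleph0_lt_aleph.mpr (by norm_num)

end Pool.Agent.Results.MP_8a117e_lc.StronglySurjective
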